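import Pool.Agent.Y799.FS.Torus

set_option autoImplicit false
open scoped Pointwise

/-!
# Good Freiman models in groups whose odd torsion is squarefree up to a torus

The starting result `NoOddTorsion` gives polynomial models for groups without odd torsion.  Here
odd torsion is allowed: a part of rank at most `r` (seen by a homomorphism `κ` to the torus
`(ℝ/ℤ)^r`), and an arbitrary part killed by a squarefree number `N`.  The bounds are polynomial in
`K`; they depend only on `r` and on the NUMBER of primes dividing `N`, not on the primes.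
-/

namespace Pool.Agent.Results.MP_ce784b_co.SquarefreeByTorus

/-- Let `G` be an abelian group, `κ` a homomorphism of `G` to the torus `(ℝ/ℤ)^r` and `N` a
squarefree number with `s` prime factors such that `N` kills every element of odd order of the
kernel of `κ`.  Then a finite nonempty set `A` with `|A+A| ≤ K|A|` contains a subset `A'` with
`|A| ≤ (2^(r+1) K)^(60005 (s+1)) |A'|` that is Freiman isomorphic (order 2) to a subset of a finite
abelian group of order at most `(2^(r+1) K)^(60005 (s+1)) |A'|`. -/
theorem result {G : Type} [AddCommGroup G] [DecidableEq G] (r : ℕ)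
    (κ : G →+ (Fin r → UnitAddCircle)) (N : ℕ) (hN : Squarefree N)
    (hG : ∀ (g : G) (m : ℕ), Odd m → m • g = 0 → κ g = 0 → N • g = 0) (A : Finset G) (K : ℝ)
    (hA : A.Nonempty) (hK : ((A + A).card : ℝ) ≤ K * A.card) :
    ∃ A' ⊆ A, (A.card : ℝ) ≤
        (2 ^ (r + 1) * K) ^ (60005 * (N.primeFactors.card + 1)) * A'.card ∧
      ∃ (H : Type) (_ : AddCommGroup H) (_ : Fintype H),
        (Fintype.card H : ℝ) ≤
          (2 ^ (r + 1) * K) ^ (60005 * (N.primeFactors.card + 1)) * A'.card ∧
        ∃ (B : Set H) (f : G → H), IsAddFreimanIso 2 (A' : Set G) B f := by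
  obtain ⟨A', hA', h1, H, iH, fH, h2, f, hf⟩ :=
    Pool.Agent.Y799.FS.torus_main κ hN hG hA hK
  exact ⟨A', hA', h1, H, iH, fH, h2, _, f, Pool.Agent.Y799.FS.iso_of_raw hf⟩

end Pool.Agent.Results.MP_ce784b_co.SquarefreeByTorus
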